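import Pool.Agent.P8H48.DC.Stm

/-!
# Project DC, package OPN: an affine line as an open subscheme of the cover
-/

set_option autoImplicit false

open CategoryTheory AlgebraicGeometry MvPolynomial

namespace Pool.Agent.P8H21.DC

open Pool.Agent.P8H48.DC

/-- the composite `Q → B → B_{φ q}` as an algebra structure -/
abbrev algc {Q B : Type} [CommRing Q] [CommRing B] (φ : Q →+* B) (q : Q) :
    Algebra Q (Localization.Away (φ q)) := ((algebraMap B (Localization.Away (φ q))).comp φ).toAlgebra

/-- `B_{φ q}` is the localisation of `Q` at `q` -/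
def IsL {Q B : Type} [CommRing Q] [CommRing B] (φ : Q →+* B) (q : Q) : Prop :=
  @IsLocalization.Away Q _ q (Localization.Away (φ q)) _ (algc φ q)

lemma away_oi {Q B : Type} [CommRing Q] [CommRing B] (φ : Q →+* B) (q : Q) (h : IsL φ q) :
    IsOpenImmersion (Spec.map (CommRingCat.ofHom (algebraMap B (Localization.Away (φ q)))) ≫
      Spec.map (CommRingCat.ofHom φ)) := by
  let _ := algc φ q
  have h' : IsLocalization.Away q (Localization.Away (φ q)) := h
  have h1 := IsOpenImmersion.of_isLocalization (R := Q) (S := Localization.Away (φ q)) q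
  rw [← Spec.map_comp, ← CommRingCat.ofHom_comp]
  exact h1

lemma away_surj {Q B : Type} [CommRing Q] [CommRing B] (φ : Q →+* B) (q : Q) (h : IsL φ q)
    (p : PrimeSpectrum Q) (hp : q ∉ p.asIdeal) : ∃ x : PrimeSpectrum B, PrimeSpectrum.comap φ x = p := by
  let _ := algc φ q
  have h' : IsLocalization.Away q (Localization.Away (φ q)) := h
  have h1 := PrimeSpectrum.localization_away_comap_range (Localization.Away (φ q)) q
  have h2 : p ∈ Set.range (PrimeSpectrum.comap (algebraMap Q (Localization.Away (φ q)))) := by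
    rw [h1]
    exact hp
  obtain ⟨y, hy⟩ := h2
  exact ⟨PrimeSpectrum.comap (algebraMap B (Localization.Away (φ q))) y, by
    rw [← hy]
    rfl⟩

lemma away_mem {B : Type} [CommRing B] (q : B) (x : PrimeSpectrum B) (hx : q ∉ x.asIdeal) :
    ∃ y : PrimeSpectrum (Localization.Away q), PrimeSpectrum.comap (algebraMap B (Localization.Away q)) y = x := by
  have h1 := PrimeSpectrum.localization_away_comap_range (Localization.Away q) q
  have h2 : x ∈ Set.range (PrimeSpectrum.comap (algebraMap B (Localization.Away q))) := by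
    rw [h1]
    exact hx
  exact h2

lemma oi {Q B : Type} [CommRing Q] [CommRing B] (φ : Q →+* B) (f h : Q) (hf : IsL φ f) (hh : IsL φ h)
    (hfh : Ideal.span {φ f, φ h} = ⊤) :
    IsOpenImmersion (Spec.map (CommRingCat.ofHom φ)) ∧
      Set.range (Spec.map (CommRingCat.ofHom φ)) = (PrimeSpectrum.zeroLocus ({f, h} : Set Q))ᶜ := by
  have hor : ∀ x : PrimeSpectrum B, φ f ∉ x.asIdeal ∨ φ h ∉ x.asIdeal := by
    intro x
    by_contra hc
    rw [not_or, not_not, not_not] at hc
    apply x.2.ne_top
    rw [← top_le_iff, ← hfh, Ideal.span_le]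
    rintro y (rfl | rfl)
    · exact hc.1
    · exact hc.2
  have hinj : ∀ q : Q, IsL φ q → ∀ x y : PrimeSpectrum B, φ q ∉ x.asIdeal →
      PrimeSpectrum.comap φ x = PrimeSpectrum.comap φ y → x = y := by
    intro q hq x y hx hxy
    have hy : φ q ∉ y.asIdeal := by
      intro h1
      apply hx
      have h2 : q ∈ (PrimeSpectrum.comap φ y).asIdeal := h1
      rw [← hxy] at h2
      exact h2
    obtain ⟨x', hx'⟩ := away_mem (φ q) x hx
    obtain ⟨y', hy'⟩ := away_mem (φ q) y hy
    have h3 := away_oi φ q hq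
    have h4 := (Spec.map (CommRingCat.ofHom (algebraMap B (Localization.Away (φ q)))) ≫
      Spec.map (CommRingCat.ofHom φ)).injective
    have h5 : x' = y' := by
      apply h4
      change PrimeSpectrum.comap φ (PrimeSpectrum.comap (algebraMap B (Localization.Away (φ q))) x') =
        PrimeSpectrum.comap φ (PrimeSpectrum.comap (algebraMap B (Localization.Away (φ q))) y')
      rw [hx', hy', hxy]
    rw [← hx', ← hy', h5]
  constructor
  · refine IsOpenImmersion.of_forall_source_exists _ ?_ ?_
    · intro x y hxy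
      rcases hor x with h1 | h1
      · exact hinj f hf x y h1 hxy
      · exact hinj h hh x y h1 hxy
    · intro x
      rcases hor x with h1 | h1
      · exact ⟨_, Spec.map (CommRingCat.ofHom (algebraMap B (Localization.Away (φ f)))), inferInstance,
          away_mem (φ f) x h1, away_oi φ f hf⟩
      · exact ⟨_, Spec.map (CommRingCat.ofHom (algebraMap B (Localization.Away (φ h)))), inferInstance,
          away_mem (φ h) x h1, away_oi φ h hh⟩
  · refine Set.ext fun p => ?_
    change (∃ x : PrimeSpectrum B, PrimeSpectrum.comap φ x = p) ↔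
      ¬ (({f, h} : Set Q) ⊆ (p : PrimeSpectrum Q).asIdeal)
    constructor
    · rintro ⟨x, rfl⟩ hc
      rcases hor x with h1 | h1
      · exact h1 (hc (Or.inl rfl))
      · exact h1 (hc (Or.inr rfl))
    · intro hp
      by_cases h1 : f ∈ (p : PrimeSpectrum Q).asIdeal
      · have h2 : h ∉ (p : PrimeSpectrum Q).asIdeal := by
          intro h3
          apply hp
          rintro y (rfl | rfl)
          · exact h1
          · exact h3
        exact away_surj φ h hh p h2
      · exact away_surj φ f hf p h1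

/-- a criterion -/
lemma isL_of {A Q : Type} [CommRing A] [CommRing Q] [Algebra A Q] (φ : Q →ₐ[A] MvPolynomial (Fin 1) A)
    (q u : Q) (hu : φ q * X 0 = φ u) (ψ : MvPolynomial (Fin 1) A →+* Localization.Away q)
    (hψ : ∀ x, ψ (φ x) = algebraMap Q (Localization.Away q) x) : IsL φ.toRingHom q := by
  unfold IsL
  let _ := algc φ.toRingHom q
  have hmap : ∀ x : Q, algebraMap Q (Localization.Away (φ.toRingHom q)) x =
      algebraMap (MvPolynomial (Fin 1) A) (Localization.Away (φ.toRingHom q)) (φ x) := fun x => rfl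
  have key : ∀ b : MvPolynomial (Fin 1) A, ∃ (n : ℕ) (x : Q), φ q ^ n * b = φ x := by
    intro b
    induction b using MvPolynomial.induction_on with
    | C a =>
      refine ⟨0, algebraMap A Q a, ?_⟩
      rw [pow_zero, one_mul, AlgHom.commutes]
      rfl
    | add b c hb hc =>
      obtain ⟨n, x, hx⟩ := hb
      obtain ⟨m, y, hy⟩ := hc
      refine ⟨n + m, q ^ m * x + q ^ n * y, ?_⟩
      rw [map_add, map_mul, map_mul, map_pow, map_pow, ← hx, ← hy]
      ring
    | mul_X b i hb =>
      obtain ⟨n, x, hx⟩ := hb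
      refine ⟨n + 1, x * u, ?_⟩
      rw [map_mul, ← hx, ← hu, Fin.fin_one_eq_zero i]
      ring
  refine (isLocalization_iff _ _).2 ⟨?_, ?_, ?_⟩
  · rintro ⟨_, n, rfl⟩
    rw [hmap]
    simp only [map_pow]
    exact (IsLocalization.Away.algebraMap_isUnit (φ.toRingHom q)).pow n
  · intro y
    obtain ⟨⟨b, ⟨_, m, rfl⟩⟩, hb⟩ := IsLocalization.surj (Submonoid.powers (φ.toRingHom q)) y
    obtain ⟨n, x, hx⟩ := key b
    refine ⟨⟨x, ⟨q ^ (n + m), ⟨n + m, rfl⟩⟩⟩, ?_⟩
    rw [hmap, hmap, ← hx]
    simp only at hb ⊢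
    have hb' : y * algebraMap (MvPolynomial (Fin 1) A) (Localization.Away (φ.toRingHom q)) (φ q ^ m) =
        algebraMap (MvPolynomial (Fin 1) A) (Localization.Away (φ.toRingHom q)) b := hb
    rw [map_pow φ, pow_add, map_mul, map_mul, ← hb']
    ring
  · intro x y hxy
    rw [hmap, hmap] at hxy
    obtain ⟨⟨_, m, rfl⟩, hc⟩ := IsLocalization.exists_of_eq (M := Submonoid.powers (φ.toRingHom q)) hxy
    have hc' : φ (q ^ m * x) = φ (q ^ m * y) := by
      rw [map_mul, map_mul, map_pow]
      exact hc
    have h1 := congrArg ψ hc'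
    rw [hψ, hψ] at h1
    obtain ⟨⟨_, k, rfl⟩, hk⟩ := IsLocalization.exists_of_eq (M := Submonoid.powers q) h1
    refine ⟨⟨q ^ (k + m), ⟨k + m, rfl⟩⟩, ?_⟩
    simp only at hk ⊢
    rw [pow_add, mul_assoc, mul_assoc]
    exact hk

section cover

variable {R A : Type} [CommRing R] [CommRing A] [Algebra R A]

open Classical in
/-- `h (a + s f)` -/
noncomputable def hh (S : Finset R) (f : A) (a : R) : MvPolynomial (Fin 1) A :=
  ∏ b ∈ S.erase a, ((C (algebraMap R A a) + X 0 * C f) - C (algebraMap R A b))

/-- the map before passing to the quotient -/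
noncomputable def φ0 (S : Finset R) (f : A) (a : R) : MvPolynomial (Fin 2) A →ₐ[A] MvPolynomial (Fin 1) A :=
  aeval ![X 0 * hh S f a, C (algebraMap R A a) + X 0 * C f]

lemma φ0_C (S : Finset R) (f : A) (a : R) (x : A) : φ0 S f a (C x) = C x := by
  unfold φ0
  rw [aeval_C]
  rfl

lemma φ0_0 (S : Finset R) (f : A) (a : R) : φ0 S f a (X 0) = X 0 * hh S f a := by
  unfold φ0
  rw [aeval_X]
  rfl

lemma φ0_1 (S : Finset R) (f : A) (a : R) : φ0 S f a (X 1) = C (algebraMap R A a) + X 0 * C f := by
  unfold φ0
  rw [aeval_X]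
  rfl

lemma φ0_eqn (S : Finset R) (f : A) (a : R) (ha : a ∈ S) : φ0 S f a (eqn S f) = 0 := by
  classical
  unfold eqn
  rw [map_sub, map_prod, map_mul, φ0_0, φ0_C, ← Finset.mul_prod_erase S _ ha]
  simp only [map_sub, φ0_1, φ0_C]
  have : ∏ b ∈ S.erase a, (C (algebraMap R A a) + X 0 * C f - C (algebraMap R A b)) = hh S f a := by
    unfold hh
    congr!
  rw [this]
  ring

/-- the map -/
noncomputable def φA (S : Finset R) (f : A) (a : R) (ha : a ∈ S) : Cov S f →ₐ[A] MvPolynomial (Fin 1) A :=
  Ideal.Quotient.liftₐ (Ideal.span {eqn S f}) (φ0 S f a) (by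
    intro x hx
    have h1 : Ideal.span {eqn S f} ≤ RingHom.ker (φ0 S f a) := by
      rw [Ideal.span_le]
      rintro _ rfl
      exact φ0_eqn S f a ha
    exact h1 hx)

lemma φA_mk (S : Finset R) (f : A) (a : R) (ha : a ∈ S) (x : MvPolynomial (Fin 2) A) :
    φA S f a ha (Ideal.Quotient.mk _ x) = φ0 S f a x := rfl

/-- the coordinates -/
noncomputable def ct (S : Finset R) (f : A) : Cov S f := Ideal.Quotient.mk _ (X 0)

noncomputable def cz (S : Finset R) (f : A) : Cov S f := Ideal.Quotient.mk _ (X 1)

noncomputable def cc (S : Finset R) (f x : A) : Cov S f := Ideal.Quotient.mk _ (C x)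

lemma cc_eq (S : Finset R) (f x : A) : cc S f x = algebraMap A (Cov S f) x := rfl

lemma ch_eq (S : Finset R) (f : A) (a : R) [DecidableEq R] :
    ch S f a = ∏ b ∈ S.erase a, (cz S f - cc S f (algebraMap R A b)) := by
  unfold ch
  rw [map_prod]
  simp only [map_sub]
  unfold cz cc
  congr!

lemma rel (S : Finset R) (f : A) (a : R) (ha : a ∈ S) :
    (cz S f - cc S f (algebraMap R A a)) * ch S f a = ct S f * cf S f := by
  classical
  rw [ch_eq, Finset.mul_prod_erase S (fun b => cz S f - cc S f (algebraMap R A b)) ha]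
  have h1 : (Ideal.Quotient.mk (Ideal.span {eqn S f})) (eqn S f) = 0 :=
    Ideal.Quotient.eq_zero_iff_mem.2 (Ideal.mem_span_singleton_self _)
  unfold eqn at h1
  rw [map_sub, map_prod, map_mul, sub_eq_zero] at h1
  simp only [map_sub] at h1
  exact h1

lemma φA_f (S : Finset R) (f : A) (a : R) (ha : a ∈ S) : φA S f a ha (cf S f) = C f := by
  unfold cf
  rw [φA_mk, φ0_C]

lemma φA_h (S : Finset R) (f : A) (a : R) (ha : a ∈ S) : φA S f a ha (ch S f a) = hh S f a := by
  classical
  unfold ch
  rw [φA_mk, map_prod]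
  simp only [map_sub, φ0_1, φ0_C]
  rfl

lemma span_top (S : Finset R) (f : A) (a : R) (ha : a ∈ S) (hS : UnitDiff S) :
    Ideal.span {(C f : MvPolynomial (Fin 1) A), hh S f a} = ⊤ := by
  classical
  have h1 : ∃ y, hh S f a = C (algebraMap R A (∏ b ∈ S.erase a, (a - b))) + C f * y := by
    unfold hh
    have : ∀ T : Finset R, ∃ y : MvPolynomial (Fin 1) A,
        ∏ b ∈ T, (C (algebraMap R A a) + X 0 * C f - C (algebraMap R A b)) =
          C (algebraMap R A (∏ b ∈ T, (a - b))) + C f * y := by
      intro T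
      induction T using Finset.induction_on with
      | empty => exact ⟨0, by simp⟩
      | insert b T hb ih =>
        obtain ⟨y, hy⟩ := ih
        rw [Finset.prod_insert hb, hy, Finset.prod_insert hb, map_mul, map_mul, map_sub, map_sub]
        refine ⟨(C (algebraMap R A a) - C (algebraMap R A b)) * y +
          X 0 * (C (algebraMap R A (∏ b ∈ T, (a - b))) + C f * y), ?_⟩
        ring
    convert this (S.erase a)
  obtain ⟨y, hy⟩ := h1
  have hu : IsUnit (C (algebraMap R A (∏ b ∈ S.erase a, (a - b))) : MvPolynomial (Fin 1) A) := by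
    refine IsUnit.map _ (IsUnit.map _ ?_)
    rw [IsUnit.prod_iff]
    intro b hb
    exact hS a ha b (Finset.mem_of_mem_erase hb) (Finset.ne_of_mem_erase hb).symm
  refine Ideal.eq_top_of_isUnit_mem _ ?_ hu
  have h2 : (C (algebraMap R A (∏ b ∈ S.erase a, (a - b))) : MvPolynomial (Fin 1) A) =
      hh S f a - C f * y := by rw [hy]; ring
  rw [h2]
  exact Ideal.sub_mem _ (Ideal.subset_span (Or.inr rfl)) (Ideal.mul_mem_right _ _ (Ideal.subset_span (Or.inl rfl)))

/-- the inverse after localisation -/
lemma isL_cov (S : Finset R) (f : A) (a : R) (ha : a ∈ S) (q u : Cov S f)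
    (h1 : φA S f a ha q * X 0 = φA S f a ha u)
    (h2 : u * cf S f = q * (cz S f - cc S f (algebraMap R A a)))
    (h3 : ∀ v : Localization.Away q, v * algebraMap _ (Localization.Away q) q = algebraMap _ _ u →
      v * algebraMap _ _ (ch S f a) = algebraMap _ _ (ct S f)) :
    IsL (φA S f a ha).toRingHom q := by
  classical
  have hq : IsUnit (algebraMap (Cov S f) (Localization.Away q) q) :=
    IsLocalization.Away.algebraMap_isUnit q
  obtain ⟨w, hw⟩ := hq
  set v : Localization.Away q := algebraMap _ _ u * ↑w⁻¹ with hv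
  have hvq : v * algebraMap (Cov S f) (Localization.Away q) q = algebraMap _ _ u := by
    rw [hv, ← hw, mul_assoc, Units.inv_mul, mul_one]
  have hvf : v * algebraMap _ _ (cf S f) = algebraMap _ _ (cz S f - cc S f (algebraMap R A a)) := by
    have e := congrArg (algebraMap (Cov S f) (Localization.Away q)) h2
    rw [map_mul, map_mul] at e
    rw [hv, mul_right_comm, e, ← hw, mul_comm (w : Localization.Away q), mul_assoc, Units.mul_inv, mul_one]
  have hvh := h3 v hvq
  set ψ : MvPolynomial (Fin 1) A →ₐ[A] Localization.Away q := aeval fun _ => v with hψ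
  have hψX : ψ (X 0) = v := by rw [hψ, aeval_X]
  have hψC : ∀ x : A, ψ (C x) = algebraMap (Cov S f) (Localization.Away q) (cc S f x) := by
    intro x
    rw [hψ, aeval_C, cc_eq, ← IsScalarTower.algebraMap_apply]
  have hz : ψ (C (algebraMap R A a) + X 0 * C f) = algebraMap _ _ (cz S f) := by
    rw [map_add, map_mul, hψX, hψC, hψC]
    have : cc S f f = cf S f := rfl
    rw [this, hvf, map_sub]
    ring
  refine isL_of (φA S f a ha) q u h1 ψ.toRingHom ?_
  have hcomp : ψ.comp (φA S f a ha) = IsScalarTower.toAlgHom A (Cov S f) (Localization.Away q) := by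
    refine Ideal.Quotient.algHom_ext _ ?_
    refine MvPolynomial.algHom_ext fun i => ?_
    fin_cases i
    · change ψ (φ0 S f a (X 0)) = algebraMap _ _ (ct S f)
      rw [φ0_0, map_mul, hψX, ← hvh]
      congr 1
      rw [ch_eq, map_prod]
      unfold hh
      rw [map_prod]
      refine Finset.prod_congr (by congr!) fun b _ => ?_
      rw [map_sub, hz, hψC, map_sub]
    · change ψ (φ0 S f a (X 1)) = algebraMap _ _ (cz S f)
      rw [φ0_1, hz]
  intro x
  exact DFunLike.congr_fun hcomp x

theorem opn : S_OPN := by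
  intro R A _ _ _ S f a ha hS
  classical
  refine ⟨(φA S f a ha).restrictScalars R, ?_⟩
  have hfl : IsL (φA S f a ha).toRingHom (cf S f) := by
    refine isL_cov S f a ha (cf S f) (cz S f - cc S f (algebraMap R A a)) ?_ ?_ ?_
    · rw [φA_f]
      unfold cz cc
      rw [map_sub, φA_mk, φA_mk, φ0_1, φ0_C]
      ring
    · ring
    · intro v hv
      have e : v * algebraMap _ (Localization.Away (cf S f)) (ch S f a) *
          algebraMap _ (Localization.Away (cf S f)) (cf S f) =
          algebraMap _ (Localization.Away (cf S f)) (ct S f) *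
            algebraMap _ (Localization.Away (cf S f)) (cf S f) := by
        rw [mul_right_comm, hv, ← map_mul, rel S f a ha, map_mul]
      exact (IsLocalization.Away.algebraMap_isUnit (cf S f)).mul_right_cancel e
  have hhl : IsL (φA S f a ha).toRingHom (ch S f a) := by
    refine isL_cov S f a ha (ch S f a) (ct S f) ?_ ?_ ?_
    · rw [φA_h]
      unfold ct
      rw [φA_mk, φ0_0]
      ring
    · rw [← rel S f a ha]
      ring
    · intro v hv
      exact hv
  have hs : Ideal.span {(φA S f a ha).toRingHom (cf S f), (φA S f a ha).toRingHom (ch S f a)} = ⊤ := by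
    change Ideal.span {φA S f a ha (cf S f), φA S f a ha (ch S f a)} = ⊤
    rw [φA_f, φA_h]
    exact span_top S f a ha hS
  exact oi (φA S f a ha).toRingHom (cf S f) (ch S f a) hfl hhl hs

end cover

end Pool.Agent.P8H21.DC
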